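import Pool.Agent.H300R2.EC.Defs

/-!
Large sieve for Jacobi symbols by duality (task X2 of helper300).
-/

namespace Pool.Agent.H52R2.EC

open Finset
open Pool.Agent.H300R2.EC

/-- the numbers `D'` with `D D'` a square lie in one family `± a t²` -/
theorem count_sq (X : ℕ) (D : ℤ) (hD : D ≠ 0) :
    (((Dset X).filter (fun D' => IsSquare (D * D'))).card : ℝ) ≤ Real.sqrt X := by
  obtain ⟨a, s, has, hsq⟩ := Nat.sq_mul_squarefree D.natAbs
  have hs0 : s ≠ 0 := by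
    rintro rfl
    rw [zero_pow two_ne_zero, zero_mul] at has
    exact hD (Int.natAbs_eq_zero.1 has.symm)
  have hsub : (Dset X).filter (fun D' => IsSquare (D * D')) ⊆
      (Icc 1 (Nat.sqrt X)).image (fun t : ℕ => D.sign * ((a * t ^ 2 : ℕ) : ℤ)) := by
    intro D' hD'
    rw [mem_filter] at hD'
    obtain ⟨hm, r, hr⟩ := hD'
    unfold Dset at hm
    rw [mem_filter, mem_Icc] at hm
    obtain ⟨⟨h1, h2⟩, h3⟩ := hm
    have h4 : D.natAbs * D'.natAbs = r.natAbs * r.natAbs := by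
      rw [← Int.natAbs_mul, ← Int.natAbs_mul, hr]
    rw [← has] at h4
    have h5 : s ^ 2 ∣ r.natAbs ^ 2 := ⟨a * D'.natAbs, by rw [sq r.natAbs, ← h4]; ring⟩
    obtain ⟨τ, hτ⟩ := (Nat.pow_dvd_pow_iff two_ne_zero).1 h5
    have h6 : a * D'.natAbs = τ ^ 2 := by
      have h7 : s ^ 2 * (a * D'.natAbs) = s ^ 2 * τ ^ 2 := by
        rw [← mul_assoc, h4, hτ]
        ring
      exact Nat.eq_of_mul_eq_mul_left (by positivity) h7
    have h8 : a ∣ τ := (hsq.dvd_pow_iff_dvd two_ne_zero).1 ⟨_, h6.symm⟩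
    obtain ⟨t, ht⟩ := h8
    have ha0 : a ≠ 0 := hsq.ne_zero
    have h9 : D'.natAbs = a * t ^ 2 := by
      have h10 : a * D'.natAbs = a * (a * t ^ 2) := by
        rw [h6, ht]
        ring
      exact Nat.eq_of_mul_eq_mul_left (Nat.pos_of_ne_zero ha0) h10
    have ht0 : t ≠ 0 := by
      rintro rfl
      rw [zero_pow two_ne_zero, mul_zero] at h9
      exact h3 (Int.natAbs_eq_zero.1 h9)
    rw [mem_image]
    refine ⟨t, ?_, ?_⟩
    · rw [mem_Icc]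
      refine ⟨Nat.pos_of_ne_zero ht0, ?_⟩
      rw [Nat.le_sqrt']
      have h11 : D'.natAbs ≤ X := by omega
      have h12 : t ^ 2 ≤ a * t ^ 2 := Nat.le_mul_of_pos_left _ (Nat.pos_of_ne_zero ha0)
      omega
    · rw [← h9]
      have h13 : 0 < D * D' := by
        rw [hr]
        have hr0 : r ≠ 0 := by
          rintro rfl
          rw [mul_zero] at hr
          rcases mul_eq_zero.1 hr with h | h
          · exact hD h
          · exact h3 h
        exact mul_self_pos.2 hr0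
      rcases pos_and_pos_or_neg_and_neg_of_mul_pos h13 with ⟨p1, p2⟩ | ⟨p1, p2⟩
      · rw [Int.sign_eq_one_of_pos p1, one_mul]
        exact Int.natAbs_of_nonneg p2.le
      · rw [Int.sign_eq_neg_one_of_neg p1]
        omega
  have h14 := (card_le_card hsub).trans card_image_le
  rw [Nat.card_Icc, Nat.add_sub_cancel] at h14
  calc (((Dset X).filter (fun D' => IsSquare (D * D'))).card : ℝ) ≤ (Nat.sqrt X : ℝ) := by
        exact_mod_cast h14
    _ ≤ Real.sqrt X := Real.nat_sqrt_le_real_sqrt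

theorem card_Dset (X : ℕ) : ((Dset X).card : ℝ) ≤ 2 * X := by
  have h1 : Dset X ⊆ (Icc (-(X : ℤ)) X).erase 0 := by
    intro D hD
    unfold Dset at hD
    rw [mem_filter] at hD
    exact mem_erase.2 ⟨hD.2, hD.1⟩
  have h2 := card_le_card h1
  rw [card_erase_of_mem (by rw [mem_Icc]; omega), Int.card_Icc] at h2
  have h3 : (Dset X).card ≤ 2 * X := by omega
  exact_mod_cast h3

theorem dual
    (jac_sum : ∀ m : ℤ, ¬ IsSquare m → ∀ N : ℕ,
      |∑ n ∈ (Icc 1 N).filter (fun n : ℕ => Odd n), (jacobiSym m n : ℝ)| ≤ 4 * |(m : ℝ)|)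
    (X N : ℕ) (b : ℤ → ℝ) :
    ∑ n ∈ (Icc 1 N).filter (fun n : ℕ => Odd n), (∑ D ∈ Dset X, b D * (jacobiSym D n : ℝ)) ^ 2 ≤
      (N * Real.sqrt X + 8 * (X : ℝ) ^ 3) * ∑ D ∈ Dset X, b D ^ 2 := by
  classical
  set O := (Icc 1 N).filter (fun n : ℕ => Odd n) with hO
  have hOc : (O.card : ℝ) ≤ N := by
    have h1 := card_filter_le (Icc 1 N) (fun n : ℕ => Odd n)
    rw [Nat.card_Icc, Nat.add_sub_cancel] at h1
    exact_mod_cast h1
  have hjb : ∀ (m : ℤ) (n : ℕ), |(jacobiSym m n : ℝ)| ≤ 1 := by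
    intro m n
    rcases jacobiSym.trichotomy m n with h | h | h <;> rw [h] <;> norm_num
  have e1 : ∑ n ∈ O, (∑ D ∈ Dset X, b D * (jacobiSym D n : ℝ)) ^ 2 =
      ∑ D ∈ Dset X, ∑ D' ∈ Dset X, b D * b D' * ∑ n ∈ O, (jacobiSym (D * D') n : ℝ) := by
    have e2 : ∀ n ∈ O, (∑ D ∈ Dset X, b D * (jacobiSym D n : ℝ)) ^ 2 =
        ∑ D ∈ Dset X, ∑ D' ∈ Dset X, b D * b D' * (jacobiSym (D * D') n : ℝ) := by
      intro n _
      rw [sq, sum_mul_sum]
      refine sum_congr rfl fun D _ => sum_congr rfl fun D' _ => ?_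
      rw [jacobiSym.mul_left]
      push_cast
      ring
    rw [sum_congr rfl e2, sum_comm]
    refine sum_congr rfl fun D _ => ?_
    rw [sum_comm]
    refine sum_congr rfl fun D' _ => ?_
    rw [mul_sum]
  rw [e1]
  have key : ∀ D ∈ Dset X, ∀ D' ∈ Dset X, b D * b D' * ∑ n ∈ O, (jacobiSym (D * D') n : ℝ) ≤
      (if IsSquare (D * D') then (b D ^ 2 + b D' ^ 2) / 2 * N else 0) +
        |b D| * |b D'| * (4 * (X : ℝ) ^ 2) := by
    intro D hD D' hD'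
    have hbd : |b D| * |b D'| ≤ (b D ^ 2 + b D' ^ 2) / 2 := by
      have h := two_mul_le_add_sq |b D| |b D'|
      rw [sq_abs, sq_abs] at h
      linarith
    have h0 : b D * b D' * ∑ n ∈ O, (jacobiSym (D * D') n : ℝ) ≤
        |b D| * |b D'| * |∑ n ∈ O, (jacobiSym (D * D') n : ℝ)| := by
      rw [← abs_mul, ← abs_mul]
      exact le_abs_self _
    refine h0.trans ?_
    have hp : 0 ≤ |b D| * |b D'| := by positivity
    by_cases hsq : IsSquare (D * D')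
    · rw [if_pos hsq]
      have h1 : |∑ n ∈ O, (jacobiSym (D * D') n : ℝ)| ≤ N := by
        calc |∑ n ∈ O, (jacobiSym (D * D') n : ℝ)| ≤ ∑ n ∈ O, |(jacobiSym (D * D') n : ℝ)| :=
              abs_sum_le_sum_abs _ _
          _ ≤ ∑ _n ∈ O, (1 : ℝ) := sum_le_sum fun n _ => hjb _ _
          _ = O.card := by rw [sum_const, nsmul_eq_mul, mul_one]
          _ ≤ N := hOc
      have h2 : |b D| * |b D'| * |∑ n ∈ O, (jacobiSym (D * D') n : ℝ)| ≤
          (b D ^ 2 + b D' ^ 2) / 2 * N :=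
        mul_le_mul hbd h1 (abs_nonneg _) (by positivity)
      have h3 : 0 ≤ |b D| * |b D'| * (4 * (X : ℝ) ^ 2) := by positivity
      linarith
    · rw [if_neg hsq, zero_add]
      refine mul_le_mul_of_nonneg_left ?_ hp
      refine (jac_sum _ hsq N).trans ?_
      have h4 : ∀ E ∈ Dset X, |(E : ℝ)| ≤ X := by
        intro E hE
        unfold Dset at hE
        rw [mem_filter, mem_Icc] at hE
        rw [abs_le]
        constructor
        · exact_mod_cast hE.1.1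
        · exact_mod_cast hE.1.2
      push_cast
      rw [abs_mul]
      have h5 : |(D : ℝ)| * |(D' : ℝ)| ≤ X * X :=
        mul_le_mul (h4 D hD) (h4 D' hD') (abs_nonneg _) (by positivity)
      nlinarith
  have hsum1 : ∑ D ∈ Dset X, ∑ D' ∈ Dset X, |b D| * |b D'| * (4 * (X : ℝ) ^ 2) ≤
      8 * (X : ℝ) ^ 3 * ∑ D ∈ Dset X, b D ^ 2 := by
    have h1 : ∑ D ∈ Dset X, ∑ D' ∈ Dset X, |b D| * |b D'| * (4 * (X : ℝ) ^ 2) =
        (∑ D ∈ Dset X, |b D|) ^ 2 * (4 * (X : ℝ) ^ 2) := by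
      rw [sq (∑ D ∈ Dset X, |b D|), sum_mul_sum, sum_mul]
      exact sum_congr rfl fun D _ => by rw [sum_mul]
    have h2 : (∑ D ∈ Dset X, |b D|) ^ 2 ≤ (Dset X).card * ∑ D ∈ Dset X, |b D| ^ 2 :=
      sq_sum_le_card_mul_sum_sq
    have h3 : ∑ D ∈ Dset X, |b D| ^ 2 = ∑ D ∈ Dset X, b D ^ 2 :=
      sum_congr rfl fun D _ => sq_abs _
    rw [h3] at h2
    have h4 : 0 ≤ ∑ D ∈ Dset X, b D ^ 2 := sum_nonneg fun _ _ => sq_nonneg _
    have h5 : (∑ D ∈ Dset X, |b D|) ^ 2 ≤ 2 * X * ∑ D ∈ Dset X, b D ^ 2 :=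
      h2.trans (mul_le_mul_of_nonneg_right (card_Dset X) h4)
    rw [h1]
    calc (∑ D ∈ Dset X, |b D|) ^ 2 * (4 * (X : ℝ) ^ 2)
        ≤ (2 * X * ∑ D ∈ Dset X, b D ^ 2) * (4 * (X : ℝ) ^ 2) :=
          mul_le_mul_of_nonneg_right h5 (by positivity)
      _ = 8 * (X : ℝ) ^ 3 * ∑ D ∈ Dset X, b D ^ 2 := by ring
  have hsum2 : ∑ D ∈ Dset X, ∑ D' ∈ Dset X,
      (if IsSquare (D * D') then (b D ^ 2 + b D' ^ 2) / 2 * (N : ℝ) else 0) ≤
      N * Real.sqrt X * ∑ D ∈ Dset X, b D ^ 2 := by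
    have hA : ∑ D ∈ Dset X, ∑ D' ∈ Dset X, (if IsSquare (D * D') then b D ^ 2 else 0) ≤
        Real.sqrt X * ∑ D ∈ Dset X, b D ^ 2 := by
      rw [mul_sum]
      refine sum_le_sum fun D hD => ?_
      rw [← sum_filter, sum_const, nsmul_eq_mul]
      have hD0 : D ≠ 0 := by
        unfold Dset at hD
        exact (mem_filter.1 hD).2
      exact mul_le_mul_of_nonneg_right (count_sq X D hD0) (sq_nonneg _)
    have hB : ∑ D ∈ Dset X, ∑ D' ∈ Dset X, (if IsSquare (D * D') then b D' ^ 2 else 0) =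
        ∑ D ∈ Dset X, ∑ D' ∈ Dset X, (if IsSquare (D * D') then b D ^ 2 else 0) := by
      rw [sum_comm]
      refine sum_congr rfl fun D _ => sum_congr rfl fun D' _ => ?_
      rw [mul_comm D D']
    have hC : ∑ D ∈ Dset X, ∑ D' ∈ Dset X,
        (if IsSquare (D * D') then (b D ^ 2 + b D' ^ 2) / 2 * (N : ℝ) else 0) =
        N * ((∑ D ∈ Dset X, ∑ D' ∈ Dset X, (if IsSquare (D * D') then b D ^ 2 else 0)) +
          ∑ D ∈ Dset X, ∑ D' ∈ Dset X, (if IsSquare (D * D') then b D' ^ 2 else 0)) / 2 := by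
      rw [← sum_add_distrib, mul_sum, sum_div]
      refine sum_congr rfl fun D _ => ?_
      rw [← sum_add_distrib, mul_sum, sum_div]
      refine sum_congr rfl fun D' _ => ?_
      split_ifs
      · ring
      · ring
    rw [hC, hB]
    have hN : (0 : ℝ) ≤ N := Nat.cast_nonneg N
    nlinarith [mul_le_mul_of_nonneg_left hA hN]
  calc ∑ D ∈ Dset X, ∑ D' ∈ Dset X, b D * b D' * ∑ n ∈ O, (jacobiSym (D * D') n : ℝ)
      ≤ ∑ D ∈ Dset X, ∑ D' ∈ Dset X,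
        ((if IsSquare (D * D') then (b D ^ 2 + b D' ^ 2) / 2 * (N : ℝ) else 0) +
          |b D| * |b D'| * (4 * (X : ℝ) ^ 2)) :=
        sum_le_sum fun D hD => sum_le_sum fun D' hD' => key D hD D' hD'
    _ = ∑ D ∈ Dset X, ∑ D' ∈ Dset X,
        (if IsSquare (D * D') then (b D ^ 2 + b D' ^ 2) / 2 * (N : ℝ) else 0) +
        ∑ D ∈ Dset X, ∑ D' ∈ Dset X, |b D| * |b D'| * (4 * (X : ℝ) ^ 2) := by
        simp only [sum_add_distrib]
    _ ≤ N * Real.sqrt X * ∑ D ∈ Dset X, b D ^ 2 + 8 * (X : ℝ) ^ 3 * ∑ D ∈ Dset X, b D ^ 2 :=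
        add_le_add hsum2 hsum1
    _ = (N * Real.sqrt X + 8 * (X : ℝ) ^ 3) * ∑ D ∈ Dset X, b D ^ 2 := by ring

/-- X2 -/
theorem large_sieve
    (jac_sum : ∀ m : ℤ, ¬ IsSquare m → ∀ N : ℕ,
      |∑ n ∈ (Icc 1 N).filter (fun n : ℕ => Odd n), (jacobiSym m n : ℝ)| ≤ 4 * |(m : ℝ)|)
    (X N : ℕ) (a : ℕ → ℝ) :
    ∑ D ∈ Dset X, (∑ n ∈ (Icc 1 N).filter (fun n : ℕ => Odd n), a n * (jacobiSym D n : ℝ)) ^ 2 ≤
      (N * Real.sqrt X + 8 * (X : ℝ) ^ 3) * ∑ n ∈ (Icc 1 N).filter (fun n : ℕ => Odd n), a n ^ 2 := by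
  set O := (Icc 1 N).filter (fun n : ℕ => Odd n) with hO
  set b : ℤ → ℝ := fun D => ∑ n ∈ O, a n * (jacobiSym D n : ℝ) with hb
  set S : ℝ := ∑ D ∈ Dset X, b D ^ 2 with hS
  set A : ℝ := ∑ n ∈ O, a n ^ 2 with hA
  have hΔ : 0 ≤ N * Real.sqrt X + 8 * (X : ℝ) ^ 3 := by positivity
  have hA0 : 0 ≤ A := sum_nonneg fun _ _ => sq_nonneg _
  have hS0 : 0 ≤ S := sum_nonneg fun _ _ => sq_nonneg _
  have h1 : S = ∑ n ∈ O, a n * ∑ D ∈ Dset X, b D * (jacobiSym D n : ℝ) := by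
    have h2 : ∀ D ∈ Dset X, b D ^ 2 = ∑ n ∈ O, b D * (a n * (jacobiSym D n : ℝ)) := by
      intro D _
      rw [← mul_sum, sq]
    rw [hS, sum_congr rfl h2, sum_comm]
    refine sum_congr rfl fun n _ => ?_
    rw [mul_sum]
    exact sum_congr rfl fun D _ => by ring
  have h3 : S ^ 2 ≤ A * ((N * Real.sqrt X + 8 * (X : ℝ) ^ 3) * S) := by
    calc S ^ 2 = (∑ n ∈ O, a n * ∑ D ∈ Dset X, b D * (jacobiSym D n : ℝ)) ^ 2 := by rw [← h1]
      _ ≤ (∑ n ∈ O, a n ^ 2) * ∑ n ∈ O, (∑ D ∈ Dset X, b D * (jacobiSym D n : ℝ)) ^ 2 :=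
        sum_mul_sq_le_sq_mul_sq _ _ _
      _ ≤ A * ((N * Real.sqrt X + 8 * (X : ℝ) ^ 3) * S) :=
        mul_le_mul_of_nonneg_left (dual jac_sum X N b) hA0
  show S ≤ (N * Real.sqrt X + 8 * (X : ℝ) ^ 3) * A
  rcases hS0.eq_or_lt with h | h
  · rw [← h]
    positivity
  · by_contra hcon
    push Not at hcon
    nlinarith
  
end Pool.Agent.H52R2.EC
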