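import Pool.Agent.H326R2.Pi.Stmts

/-! # T12: the primitive -/

open Polynomial

namespace Pool.Agent.H52R2.PiT12

open Pool.Agent.H326R2.Pi

theorem aeval_sol (n : ℕ) (k : ℤ) (Ψ : ℚ[X]) (h : Sol n k Ψ) (w : ℂ) :
    (w ^ 2 - 8) * aeval w (derivative Ψ) - (4 * (n : ℂ) - 1) * w * aeval w Ψ =
      (w - 2) ^ (3 * n) * (w - 3) ^ (5 * n) - k * (w ^ 2 - 8) ^ (2 * n) := by
  unfold Sol LL PP at h
  have h1 := congrArg (aeval w) h
  simp only [map_sub, map_mul, map_pow, aeval_X, map_ofNat, map_natCast, map_one,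
    Nat.cast_mul, Nat.cast_ofNat, map_intCast] at h1
  rw [← h1]
  ring

theorem S_prim_proof : S_prim := by
  intro n hn k Ψ hΨ z hz hz2
  have hz0 : z ≠ 0 := by
    intro h
    rw [h] at hz
    simp at hz
  have hs0 : z - 2 / z ≠ 0 := by
    intro h
    apply hz2
    have h1 : z - 2 / z = (z ^ 2 - 2) / z := by
      field_simp
    rw [h1, div_eq_zero_iff] at h
    rcases h with h | h
    · exact sub_eq_zero.mp h
    · exact absurd h hz0
  have hzs : z ^ 2 - 2 ≠ 0 := sub_ne_zero.mpr hz2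
  have hw : HasDerivAt (fun z : ℂ => z + 2 / z) ((z - 2 / z) / z) z := by
    have h1 := (hasDerivAt_id z).add ((hasDerivAt_inv hz0).const_mul 2)
    refine (h1.congr_deriv ?_).congr_of_eventuallyEq ?_
    · field_simp
      ring
    · refine Filter.Eventually.of_forall fun x => ?_
      show x + 2 / x = x + 2 * x⁻¹
      rw [div_eq_mul_inv]
  have hs : HasDerivAt (fun z : ℂ => z - 2 / z) ((z + 2 / z) / z) z := by
    have h1 := (hasDerivAt_id z).sub ((hasDerivAt_inv hz0).const_mul 2)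
    refine (h1.congr_deriv ?_).congr_of_eventuallyEq ?_
    · field_simp
      ring
    · refine Filter.Eventually.of_forall fun x => ?_
      show x - 2 / x = x - 2 * x⁻¹
      rw [div_eq_mul_inv]
  have hlog : HasDerivAt (fun z : ℂ => (k : ℂ) * Complex.log z) ((k : ℂ) * z⁻¹) z :=
    (Complex.hasDerivAt_log (Or.inl hz)).const_mul _
  have hΨ' : HasDerivAt (fun z : ℂ => aeval (z + 2 / z) Ψ)
      (aeval (z + 2 / z) (derivative Ψ) * ((z - 2 / z) / z)) z :=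
    HasDerivAt.comp (h₂ := fun w : ℂ => aeval w Ψ) z
      (Polynomial.hasDerivAt_aeval Ψ (z + 2 / z)) hw
  have hq : HasDerivAt (fun z : ℂ => (z - 2 / z) / (z - 2 / z) ^ (4 * n))
      (((z + 2 / z) / z * (z - 2 / z) ^ (4 * n) - (z - 2 / z) *
        (((4 * n : ℕ) : ℂ) * (z - 2 / z) ^ (4 * n - 1) * ((z + 2 / z) / z))) /
          ((z - 2 / z) ^ (4 * n)) ^ 2) z :=
    hs.div (hs.pow (4 * n)) (pow_ne_zero _ hs0)
  have hall := hlog.add (hΨ'.mul hq)
  refine hall.congr_deriv ?_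
  have h1 := aeval_sol n k Ψ hΨ (z + 2 / z)
  -- simplify the quotient
  have e1 : ((z + 2 / z) / z * (z - 2 / z) ^ (4 * n) - (z - 2 / z) *
        (((4 * n : ℕ) : ℂ) * (z - 2 / z) ^ (4 * n - 1) * ((z + 2 / z) / z))) /
          ((z - 2 / z) ^ (4 * n)) ^ 2 =
      -((4 * (n : ℂ) - 1) * (z + 2 / z)) / (z * (z - 2 / z) ^ (4 * n)) := by
    have e2 : (z - 2 / z) * (z - 2 / z) ^ (4 * n - 1) = (z - 2 / z) ^ (4 * n) := by
      rw [← pow_succ']
      congr 1
      omega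
    have e3 : (z - 2 / z) * (((4 * n : ℕ) : ℂ) * (z - 2 / z) ^ (4 * n - 1) * ((z + 2 / z) / z)) =
        ((4 * n : ℕ) : ℂ) * ((z - 2 / z) * (z - 2 / z) ^ (4 * n - 1)) * ((z + 2 / z) / z) := by
      ring
    rw [e3, e2]
    have hp : (z - 2 / z) ^ (4 * n) ≠ 0 := pow_ne_zero _ hs0
    generalize (z - 2 / z) ^ (4 * n) = p at hp ⊢
    push_cast
    field_simp
    ring
  have e4 : (z + 2 / z) ^ 2 - 8 = (z - 2 / z) ^ 2 := by
    field_simp
    ring
  have e5 : ((z + 2 / z) ^ 2 - 8) ^ (2 * n) = (z - 2 / z) ^ (4 * n) := by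
    rw [e4, ← pow_mul]
    congr 1
    omega
  have e6 : (k : ℂ) * z⁻¹ + (aeval (z + 2 / z) (derivative Ψ) * ((z - 2 / z) / z) *
      ((z - 2 / z) / (z - 2 / z) ^ (4 * n)) + aeval (z + 2 / z) Ψ *
        (-((4 * (n : ℂ) - 1) * (z + 2 / z)) / (z * (z - 2 / z) ^ (4 * n)))) =
      ((z + 2 / z - 2) ^ (3 * n) * (z + 2 / z - 3) ^ (5 * n)) / (z * (z - 2 / z) ^ (4 * n)) := by
    have e7 : (z + 2 / z - 2) ^ (3 * n) * (z + 2 / z - 3) ^ (5 * n) =
        (z - 2 / z) ^ 2 * aeval (z + 2 / z) (derivative Ψ) -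
          (4 * (n : ℂ) - 1) * (z + 2 / z) * aeval (z + 2 / z) Ψ +
          k * (z - 2 / z) ^ (4 * n) := by
      rw [← e5, ← e4, h1]
      ring
    rw [e7]
    have hp : (z - 2 / z) ^ (4 * n) ≠ 0 := pow_ne_zero _ hs0
    generalize (z - 2 / z) ^ (4 * n) = p at hp ⊢
    generalize z - 2 / z = s
    generalize z + 2 / z = w
    generalize aeval w (derivative Ψ) = A
    generalize aeval w Ψ = B
    field_simp
    ring
  rw [e1, e6]
  unfold Fi
  have f1 : z + 2 / z - 2 = (z ^ 2 - 2 * z + 2) / z := by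
    field_simp
    ring
  have f2 : z + 2 / z - 3 = (z ^ 2 - 3 * z + 2) / z := by
    field_simp
    ring
  have f3 : z - 2 / z = (z ^ 2 - 2) / z := by
    field_simp
  rw [f1, f2, f3, div_pow, div_pow, div_pow]
  have g1 : z ^ (3 * n) * z ^ (5 * n) = z ^ (4 * n) * z ^ (4 * n) := by
    rw [← pow_add, ← pow_add]
    congr 1
    omega
  rw [div_mul_div_comm, g1, pow_succ z (4 * n)]
  have hp : (z ^ 2 - 2) ^ (4 * n) ≠ 0 := pow_ne_zero _ hzs
  have hq' : z ^ (4 * n) ≠ 0 := pow_ne_zero _ hz0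
  generalize (z ^ 2 - 2) ^ (4 * n) = p at hp ⊢
  generalize z ^ (4 * n) = q at hq' ⊢
  field_simp

end Pool.Agent.H52R2.PiT12
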