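import Pool.Agent.H326R2.Pi.Stmts

/-! # T6: the homogenised equation -/

open Polynomial

namespace Pool.Agent.H52R2.PiT6

open Pool.Agent.H326R2.Pi

variable {R : Type} [CommRing R]

theorem Hom_add (a y : R[X]) (d : ℕ) (Φ Θ : R[X]) :
    Hom a y d (Φ + Θ) = Hom a y d Φ + Hom a y d Θ := by
  unfold Hom
  rw [← Finset.sum_add_distrib]
  refine Finset.sum_congr rfl fun j _ => ?_
  rw [coeff_add, C_add]
  ring

/-- `Hom` as an additive map -/
noncomputable def HomA (a y : R[X]) (d : ℕ) : R[X] →+ R[X] :=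
  AddMonoidHom.mk' (Hom a y d) (Hom_add a y d)

theorem Hom_monomial (a y : R[X]) (d i : ℕ) (hi : i ≤ d) (c : R) :
    Hom a y d (monomial i c) = C c * a ^ i * y ^ (d - i) := by
  unfold Hom
  rw [Finset.sum_eq_single i]
  · rw [coeff_monomial_same]
  · intro j _ hj
    rw [coeff_monomial_of_ne _ hj]
    simp
  · intro h
    exact absurd (Finset.mem_range.mpr (by omega)) h

theorem Hom_sub (a y : R[X]) (d : ℕ) (Φ Θ : R[X]) :
    Hom a y d (Φ - Θ) = Hom a y d Φ - Hom a y d Θ :=
  (HomA a y d).map_sub Φ Θ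

/-- left side -/
noncomputable def lhs (a y b : R[X]) (d : ℕ) (Φ : R[X]) : R[X] :=
  b * (y * derivative (Hom a y d Φ) - (d : R[X]) * derivative y * Hom a y d Φ)

/-- right side -/
noncomputable def rhs (a y : R[X]) (m d : ℕ) (Φ : R[X]) : R[X] :=
  derivative y * (Hom a y (d + 1) (LL m Φ) + (2 * (m : R[X]) - 1) * a * Hom a y d Φ)

theorem LL_add (m : ℕ) (Φ Θ : R[X]) : LL m (Φ + Θ) = LL m Φ + LL m Θ := by
  unfold LL
  rw [derivative_add]
  ring

theorem lhs_add (a y b : R[X]) (d : ℕ) (Φ Θ : R[X]) :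
    lhs a y b d (Φ + Θ) = lhs a y b d Φ + lhs a y b d Θ := by
  unfold lhs
  rw [Hom_add, derivative_add]
  ring

theorem rhs_add (a y : R[X]) (m d : ℕ) (Φ Θ : R[X]) :
    rhs a y m d (Φ + Θ) = rhs a y m d Φ + rhs a y m d Θ := by
  unfold rhs
  rw [LL_add, Hom_add, Hom_add]
  ring

theorem LL_monomial_succ (m i : ℕ) (c : R) : LL m (monomial (i + 1) c) =
    monomial (i + 2) (((i : R) + 1 - (2 * m - 1)) * c) - monomial i (8 * ((i : R) + 1) * c) := by
  unfold LL
  rw [derivative_monomial, Nat.add_sub_cancel]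
  simp only [← C_mul_X_pow_eq_monomial, C_mul, C_add, C_sub, C_1, map_natCast, map_ofNat,
    Nat.cast_add, Nat.cast_one]
  ring

theorem LL_monomial_zero (m : ℕ) (c : R) : LL m (monomial 0 c) =
    monomial 1 (-(2 * (m : R) - 1) * c) := by
  unfold LL
  rw [derivative_monomial]
  simp only [← C_mul_X_pow_eq_monomial, C_mul, C_sub, C_1, map_natCast, map_ofNat, C_neg,
    Nat.cast_zero, mul_zero, C_0]
  ring

theorem pow_aux (y : R[X]) (e : ℕ) : y * derivative (y ^ e) = (e : R[X]) * y ^ e * derivative y := by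
  rcases e with _ | e
  · simp
  · rw [derivative_pow, Nat.add_sub_cancel, pow_succ]
    simp only [map_natCast]
    ring

theorem key (a y b : R[X]) (h1 : a ^ 2 - 8 * y ^ 2 = b ^ 2)
    (h2 : derivative a * y - a * derivative y = b * derivative y) (m d i : ℕ) (hi : i ≤ d)
    (c : R) : lhs a y b d (monomial i c) = rhs a y m d (monomial i c) := by
  unfold lhs rhs
  rcases i with _ | i
  · rw [LL_monomial_zero, Hom_monomial _ _ _ _ hi, Hom_monomial _ _ _ _ (by omega)]
    have h3 := pow_aux y d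
    rw [pow_zero, mul_one, Nat.sub_zero, derivative_C_mul, pow_one, Nat.add_sub_cancel]
    have e1 : y * (C c * derivative (y ^ d)) = C c * (y * derivative (y ^ d)) := by ring
    rw [e1, h3]
    simp only [C_mul, C_sub, C_1, map_natCast, map_ofNat, C_neg]
    ring
  · obtain ⟨e, rfl⟩ : ∃ e, d = i + 1 + e := ⟨d - (i + 1), by omega⟩
    rw [LL_monomial_succ, Hom_sub, Hom_monomial _ _ _ _ hi, Hom_monomial _ _ _ _ (by omega),
      Hom_monomial _ _ _ _ (by omega)]
    have e1 : i + 1 + e - (i + 1) = e := by omega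
    have e2 : i + 1 + e + 1 - (i + 2) = e := by omega
    have e3 : i + 1 + e + 1 - i = e + 2 := by omega
    rw [e1, e2, e3, mul_assoc (C c), derivative_C_mul, derivative_mul, derivative_pow,
      Nat.add_sub_cancel]
    have h3 := pow_aux y e
    have e4 : y * (C c * (C (((i + 1 : ℕ)) : R) * a ^ i * derivative a * y ^ e +
        a ^ (i + 1) * derivative (y ^ e))) =
        C c * (C (((i + 1 : ℕ)) : R) * a ^ i * y ^ e * (derivative a * y) +
          a ^ (i + 1) * (y * derivative (y ^ e))) := by ring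
    have h2' : derivative a * y = b * derivative y + a * derivative y := by
      rw [← h2]; ring
    rw [e4, h3, h2']
    have h1' : b * b = a ^ 2 - 8 * y ^ 2 := by rw [h1]; ring
    simp only [C_mul, C_add, C_sub, C_1, map_natCast, map_ofNat, Nat.cast_add, Nat.cast_one]
    have e5 : b * (C c * (((i : R[X]) + 1) * a ^ i * y ^ e *
        (b * derivative y + a * derivative y) + a ^ (i + 1) * ((e : R[X]) * y ^ e * derivative y)) -
        ((i : R[X]) + 1 + e) * derivative y * (C c * (a ^ (i + 1) * y ^ e))) =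
        (b * b) * (C c * ((i : R[X]) + 1) * a ^ i * y ^ e * derivative y) := by ring
    rw [e5, h1']
    ring

theorem S_hom_proof : S_hom := by
  intro R _ a y b h1 h2 m d Φ hΦ
  show lhs a y b d Φ = rhs a y m d Φ
  have hL : ∀ Ψ : R[X], lhs a y b d Ψ = (AddMonoidHom.mk' (lhs a y b d) (lhs_add a y b d)) Ψ :=
    fun _ => rfl
  have hR : ∀ Ψ : R[X], rhs a y m d Ψ = (AddMonoidHom.mk' (rhs a y m d) (rhs_add a y m d)) Ψ :=
    fun _ => rfl
  rw [hL, hR, as_sum_range' Φ (d + 1) (by omega), map_sum, map_sum]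
  refine Finset.sum_congr rfl fun i hi => ?_
  rw [← hL, ← hR]
  exact key a y b h1 h2 m d i (by have := Finset.mem_range.mp hi; omega) _

end Pool.Agent.H52R2.PiT6
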